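import Pool.Agent.PV3.Stmts

/-!
Squad PV3, module INR: the inradius of a polyhedron relative to another one.
-/

set_option autoImplicit false

open MeasureTheory Metric Set Filter Topology Pointwise

namespace PV3.H65

open PV PV3

lemma Pl_closed {n : ℕ} (U : Finset (E n)) (c : E n → ℝ) : IsClosed (Pl U c) := by
  have : Pl U c = ⋂ w ∈ U, {x : E n | inner ℝ x w ≤ c w} := by
    ext x
    simp [Pl]
  rw [this]
  refine isClosed_biInter fun w _ => isClosed_le ?_ continuous_const
  exact continuous_id.inner continuous_const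

lemma Pl_convex {n : ℕ} (U : Finset (E n)) (c : E n → ℝ) : Convex ℝ (Pl U c) := by
  intro x hx y hy a b ha hb hab w hw
  have h1 := hx w hw
  have h2 := hy w hw
  rw [inner_add_left, real_inner_smul_left, real_inner_smul_left]
  calc a * inner ℝ x w + b * inner ℝ y w ≤ a * c w + b * c w := by
        gcongr
    _ = c w := by rw [← add_mul, hab, one_mul]

lemma U_nonempty {n : ℕ} (hn : 1 ≤ n) (U : Finset (E n)) (hB : Bd U) : U.Nonempty := by
  by_contra hcon
  rw [Finset.not_nonempty_iff_eq_empty] at hcon
  subst hcon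
  have h := hB fun _ => 0
  obtain ⟨R, hR⟩ := h.exists_norm_le
  have h1 := hR (EuclideanSpace.single ⟨0, by omega⟩ (|R| + 1)) (by intro w hw; simp at hw)
  rw [EuclideanSpace.norm_single, Real.norm_eq_abs, abs_of_nonneg (by positivity)] at h1
  have := le_abs_self R
  linarith

theorem inr : INRStmt := by
  intro n hn U c d hU hB hF hd
  have hUne := U_nonempty hn U hB
  have hcomp : IsCompact (Pl U c) := Metric.isCompact_of_isClosed_isBounded (Pl_closed U c) (hB c)
  have hne : (Pl U c).Nonempty := hF.mono interior_subset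
  obtain ⟨φ, hφ⟩ : ∃ φ : E n → ℝ, φ = fun x => U.inf' hUne fun w => (c w - inner ℝ x w) / d w :=
    ⟨_, rfl⟩
  have hcont : Continuous φ := by
    rw [hφ]
    refine Continuous.finset_inf'_apply hUne fun w _ => ?_
    exact (continuous_const.sub (continuous_id.inner continuous_const)).div_const _
  obtain ⟨x, hx, hmax⟩ := hcomp.exists_isMaxOn hne hcont.continuousOn
  have hle : ∀ y : E n, ∀ w ∈ U, φ y ≤ (c w - inner ℝ y w) / d w := by
    intro y w hw
    rw [hφ]
    exact Finset.inf'_le _ hw
  have hr0 : 0 ≤ φ x := by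
    rw [hφ]
    rw [Finset.le_inf'_iff]
    intro w hw
    exact div_nonneg (sub_nonneg.2 (hx w hw)) (hd w hw).le
  have hmem : x ∈ Pl U fun w => c w - φ x * d w := by
    intro w hw
    have := hle x w hw
    rw [le_div_iff₀ (hd w hw)] at this
    linarith
  refine ⟨φ x, hr0, ⟨x, hmem⟩, ?_⟩
  have hint : interior (Pl U fun w => c w - φ x * d w) = ∅ := by
    rw [Set.eq_empty_iff_forall_notMem]
    intro y hy
    rw [mem_interior_iff_mem_nhds, Metric.mem_nhds_iff] at hy
    obtain ⟨δ, hδ, hsub⟩ := hy
    have hyw : ∀ w ∈ U, inner ℝ y w + δ / 2 ≤ c w - φ x * d w := by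
      intro w hw
      have h1 : y + (δ / 2) • w ∈ ball y δ := by
        rw [mem_ball, dist_eq_norm, add_sub_cancel_left, norm_smul, hU w hw, Real.norm_eq_abs,
          abs_of_pos (by positivity)]
        linarith
      have h2 := hsub h1 w hw
      rw [inner_add_left, real_inner_smul_left, real_inner_self_eq_norm_sq, hU w hw] at h2
      linarith
    have hyP : y ∈ Pl U c := by
      intro w hw
      have := hyw w hw
      have := mul_nonneg hr0 (hd w hw).le
      linarith
    have h3 : φ y ≤ φ x := hmax hyP
    have h4 : φ x < φ y := by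
      rw [hφ]
      simp only
      rw [Finset.lt_inf'_iff]
      intro w hw
      have h5 := hyw w hw
      rw [hφ] at h5
      rw [lt_div_iff₀ (hd w hw)]
      linarith
    linarith
  have hz := (Pl_convex U fun w => c w - φ x * d w).addHaar_frontier volume
  rw [frontier, hint, sdiff_empty, (Pl_closed U _).closure_eq] at hz
  rw [vl, hz]
  simp

end PV3.H65
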