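import Pool.Agent.PV3.Stmts

/-!
Squad PV3, module SEK: the second difference of the shadows of a polytope vanishes if no facet
contains the direction.
-/

set_option autoImplicit false

open MeasureTheory Metric Set Filter Topology

namespace PV3.H65.Sek

open PV PV.KC

/-- The upper support function of a planar polytope is linear near `0` if no side is horizontal. -/
lemma T_lin {I : Type} (U : Finset I) (p m b : I → ℝ) {δ : ℝ} (hδ : 0 < δ)
    (hp : ∀ w ∈ U, δ ≤ |p w|) (hm : ∀ w ∈ U, |m w| ≤ 1) {S : Set (ℝ × ℝ)} (hS : IsCompact S)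
    (hSq : ∀ q : ℝ × ℝ, q ∈ S ↔ ∀ w ∈ U, p w * q.1 + m w * q.2 ≤ b w) {s0 : ℝ}
    (hs0 : (s0, T S 0) ∈ S) {t : ℝ} (ht : |t| < δ) : T S t = T S 0 - t * s0 := by
  refine le_antisymm ?_ (le_T hS t hs0)
  by_contra hcon
  push Not at hcon
  obtain ⟨q, hq, hq1, _⟩ := T_exists hS ⟨_, hs0⟩ t
  rw [← hq1] at hcon
  obtain ⟨r0, hr0⟩ : ∃ r0 : ℝ, r0 = T S 0 := ⟨_, rfl⟩
  have htop : ∀ q' ∈ S, q'.2 ≤ r0 := by
    intro q' hq'
    have := le_T hS 0 hq'
    rw [hr0]
    linarith
  rw [← hr0] at hs0 hcon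
  obtain ⟨σ, hσ⟩ : ∃ σ : ℝ, σ = q.1 - s0 := ⟨_, rfl⟩
  have h1 : r0 - q.2 < -(t * σ) := by rw [hσ]; nlinarith
  have h2 : 0 ≤ r0 - q.2 := by linarith [htop q hq]
  have h3 : r0 - q.2 < |t| * |σ| := by
    rw [← abs_mul]
    exact lt_of_lt_of_le h1 (neg_le_abs _)
  have h4 : |t| * |σ| ≤ δ * |σ| := mul_le_mul_of_nonneg_right ht.le (abs_nonneg _)
  have hσ0 : 0 < |σ| := by
    rcases (abs_nonneg σ).lt_or_eq with h | h
    · exact h
    · rw [← h, mul_zero] at h3; linarith
  have hev : ∀ᶠ ε in 𝓝[>] (0 : ℝ), ∀ w ∈ U,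
      p w * (s0 + ε * σ) + m w * (r0 + ε * (δ * |σ|)) ≤ b w := by
    rw [Filter.eventually_all_finset]
    intro w hw
    have hact := (hSq _).1 hs0 w hw
    simp only at hact
    rcases hact.lt_or_eq with hlt | heq
    · have hc : Continuous (fun ε : ℝ => p w * (s0 + ε * σ) + m w * (r0 + ε * (δ * |σ|))) := by
        fun_prop
      have h5 : ∀ᶠ ε in 𝓝 (0 : ℝ), p w * (s0 + ε * σ) + m w * (r0 + ε * (δ * |σ|)) < b w := by
        refine hc.continuousAt.eventually_lt continuousAt_const ?_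
        simpa using hlt
      exact (h5.filter_mono nhdsWithin_le_nhds).mono fun ε h => h.le
    · have h6 := (hSq _).1 hq w hw
      have h7 : p w * σ ≤ m w * (r0 - q.2) := by rw [hσ]; nlinarith
      have h8 : m w * (r0 - q.2) ≤ r0 - q.2 := by
        have := (abs_le.1 (hm w hw)).2
        nlinarith
      have h9 : δ * |σ| ≤ |p w * σ| := by
        rw [abs_mul]; exact mul_le_mul_of_nonneg_right (hp w hw) (abs_nonneg _)
      have h10 : p w * σ < 0 := by
        by_contra h
        push Not at h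
        rw [abs_of_nonneg h] at h9
        linarith
      rw [abs_of_neg h10] at h9
      have h11 : m w * (δ * |σ|) ≤ δ * |σ| := by
        have := (abs_le.1 (hm w hw)).2
        have h0 : 0 ≤ δ * |σ| := by positivity
        nlinarith
      filter_upwards [self_mem_nhdsWithin] with ε hε
      have hε' : 0 < ε := hε
      have h12 : ε * (p w * σ + m w * (δ * |σ|)) ≤ 0 :=
        mul_nonpos_of_nonneg_of_nonpos hε'.le (by linarith)
      calc p w * (s0 + ε * σ) + m w * (r0 + ε * (δ * |σ|))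
          = (p w * s0 + m w * r0) + ε * (p w * σ + m w * (δ * |σ|)) := by ring
        _ ≤ b w := by rw [heq]; linarith
  obtain ⟨ε, hε, hε0⟩ := (hev.and self_mem_nhdsWithin).exists
  have hε0' : 0 < ε := hε0
  have hmem : (s0 + ε * σ, r0 + ε * (δ * |σ|)) ∈ S := (hSq _).2 hε
  have := htop _ hmem
  simp only at this
  have h13 : 0 < ε * (δ * |σ|) := by positivity
  linarith

/-- The second difference of the upper support function vanishes. -/
lemma T_second {I : Type} (U : Finset I) (p m b : I → ℝ) {δ : ℝ} (hδ : 0 < δ)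
    (hp : ∀ w ∈ U, δ ≤ |p w|) (hm : ∀ w ∈ U, |m w| ≤ 1) {S : Set (ℝ × ℝ)} (hS : IsCompact S)
    (hne : S.Nonempty)
    (hSq : ∀ q : ℝ × ℝ, q ∈ S ↔ ∀ w ∈ U, p w * q.1 + m w * q.2 ≤ b w)
    {t : ℝ} (ht : |t| < δ) : T S t + T S (-t) - 2 * T S 0 = 0 := by
  obtain ⟨q, hq, h1, _⟩ := T_exists hS hne 0
  have hs0 : (q.1, T S 0) ∈ S := by rw [← h1]; simpa using hq
  rw [T_lin U p m b hδ hp hm hS hSq hs0 ht,
    T_lin U p m b hδ hp hm hS hSq hs0 (t := -t) (by rwa [abs_neg])]
  ring

/-- The second difference of the lower support function vanishes. -/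
lemma B_second {I : Type} (U : Finset I) (p m b : I → ℝ) {δ : ℝ} (hδ : 0 < δ)
    (hp : ∀ w ∈ U, δ ≤ |p w|) (hm : ∀ w ∈ U, |m w| ≤ 1) {S : Set (ℝ × ℝ)} (hS : IsCompact S)
    (hne : S.Nonempty)
    (hSq : ∀ q : ℝ × ℝ, q ∈ S ↔ ∀ w ∈ U, p w * q.1 + m w * q.2 ≤ b w)
    {t : ℝ} (ht : |t| < δ) : B S t + B S (-t) - 2 * B S 0 = 0 := by
  have h := T_second U p (fun w => - m w) b hδ hp (fun w hw => by rw [abs_neg]; exact hm w hw)
    (refl_compact hS) (refl_nonempty hne) (fun q => by
      have : q ∈ refl S ↔ ((q.1, -q.2) : ℝ × ℝ) ∈ S := Iff.rfl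
      rw [this, hSq]
      simp only [neg_mul, mul_neg]) ht
  unfold B
  rw [neg_neg, neg_zero]
  linarith

/-- The volume of a shadow as the integral of the slices. -/
lemma shadow_vol {n : ℕ} {X : Set (ℝ × ℝ × E n)} (hX : IsCompact X) (t : ℝ) :
    ((volume : Measure ℝ).prod (volume : Measure (E n))).real (shadow t X) =
      ∫ z, g X 0 1 t z ∂(volume : Measure (E n)) := by
  rw [← (G_eq (volume : Measure (E n)) hX 0 1 t).1]
  simp

end PV3.H65.Sek

namespace PV3.H65

open PV PV.KC Sek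

theorem sek : SEKStmt := by
  intro n U c u ν ι hU hbd hu hν huν hu' hν' hne
  -- the number `δ`
  obtain ⟨δ, hδ, hδU⟩ : ∃ δ : ℝ, 0 < δ ∧ ∀ w ∈ U, δ ≤ |inner ℝ u w| := by
    by_cases hUe : U.Nonempty
    · refine ⟨U.inf' hUe (fun w => |inner ℝ u w|), ?_, fun w hw => Finset.inf'_le _ hw⟩
      rw [Finset.lt_inf'_iff]
      intro w hw
      exact abs_pos.2 (hne w hw)
    · rw [Finset.not_nonempty_iff_eq_empty] at hUe
      subst hUe
      exact ⟨1, one_pos, fun w hw => absurd hw (Finset.notMem_empty w)⟩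
  refine ⟨δ, hδ, fun t ht => ?_⟩
  -- the coordinates
  have hbij := TR.coord_bijective (ι := ι) (by simp) hu hν huν hu' hν'
  let e : (ℝ × ℝ × E n) ≃ₗ[ℝ] E (n + 2) := LinearEquiv.ofBijective (TR.coordL u ν ι) hbij
  let eL : (ℝ × ℝ × E n) ≃L[ℝ] E (n + 2) := e.toContinuousLinearEquiv
  have heL : ∀ p, eL p = coord u ν ι p := fun p => rfl
  have hPlclosed : IsClosed (Pl U c) := by
    have : Pl U c = ⋂ w ∈ U, {x | inner ℝ x w ≤ c w} := by
      ext x; simp [Pl]
    rw [this]
    refine isClosed_biInter fun w _ => ?_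
    exact isClosed_le (by fun_prop) continuous_const
  have hPlconv : Convex ℝ (Pl U c) := by
    intro x hx y hy a b ha hb hab w hw
    rw [inner_add_left, inner_smul_left, inner_smul_left]
    simp only [conj_trivial]
    have h1 := mul_le_mul_of_nonneg_left (hx w hw) ha
    have h2 := mul_le_mul_of_nonneg_left (hy w hw) hb
    have h3 : a * c w + b * c w = c w := by rw [← add_mul, hab, one_mul]
    linarith
  have hPlc : IsCompact (Pl U c) := Metric.isCompact_of_isClosed_isBounded hPlclosed hbd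
  obtain ⟨X, hX⟩ : ∃ X : Set (ℝ × ℝ × E n), X = coord u ν ι ⁻¹' Pl U c := ⟨_, rfl⟩
  rw [← hX]
  have hXc : IsCompact X := by
    have : X = eL.symm '' (Pl U c) := by
      rw [hX]
      ext p
      constructor
      · intro hp
        exact ⟨coord u ν ι p, hp, by rw [← heL, eL.symm_apply_apply]⟩
      · rintro ⟨x, hx, rfl⟩
        simp only [Set.mem_preimage, ← heL, eL.apply_symm_apply]
        exact hx
    rw [this]
    exact hPlc.image eL.symm.continuous
  have hXv : Convex ℝ X := by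
    have : X = (TR.coordL u ν ι) ⁻¹' (Pl U c) := hX
    rw [this]
    exact hPlconv.linear_preimage _
  have hslice : ∀ (z : E n) (q' : ℝ × ℝ), q' ∈ slice X z ↔ ∀ w ∈ U,
      inner ℝ u w * q'.1 + inner ℝ ν w * q'.2 ≤ c w - inner ℝ (ι z) w := by
    intro z q'
    have h0 : q' ∈ slice X z ↔ coord u ν ι (q'.1, q'.2, z) ∈ Pl U c := by
      rw [hX]; exact Iff.rfl
    rw [h0]
    refine forall₂_congr fun w hw => ?_
    have h1 : inner ℝ (coord u ν ι (q'.1, q'.2, z)) w =
        inner ℝ u w * q'.1 + inner ℝ ν w * q'.2 + inner ℝ (ι z) w := by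
      simp only [coord, inner_add_left, inner_smul_left, conj_trivial]
      ring
    rw [h1]
    constructor <;> intro h <;> linarith
  have hm : ∀ w ∈ U, |inner ℝ ν w| ≤ 1 := by
    intro w hw
    have := abs_real_inner_le_norm ν w
    rwa [hν, hU w hw, one_mul] at this
  have hq0 : ∀ z, q X 0 1 t z = 0 := by
    intro z
    by_cases hsn : (slice X z).Nonempty
    · rw [second_eq hXc hXv 0 1 t z hsn]
      have hS := slice_compact hXc z
      have hT := T_second U (fun w => inner ℝ u w) (fun w => inner ℝ ν w)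
        (fun w => c w - inner ℝ (ι z) w) hδ hδU hm hS hsn (hslice z) ht
      have hB := B_second U (fun w => inner ℝ u w) (fun w => inner ℝ ν w)
        (fun w => c w - inner ℝ (ι z) w) hδ hδU hm hS hsn (hslice z) ht
      rw [hT, hB]
      simp
    · exact q_empty 0 1 t z hsn
  have i1 := (G_eq (volume : Measure (E n)) hXc 0 1 t).2
  have i2 := (G_eq (volume : Measure (E n)) hXc 0 1 (-t)).2
  rw [shadow_vol hXc, shadow_vol hXc, shadow_vol hXc, ← integral_add i1 i2,
    ← integral_const_mul]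
  refine integral_congr_ae (Eventually.of_forall fun z => ?_)
  have := hq0 z
  unfold q at this
  simp only
  linarith

end PV3.H65
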